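import Pool.Agent.Helper11.DC.Digits
import Pool.Agent.Helper16.N3.Realize
import Pool.Agent.Helper63.PC.Bridge

/-!
# The device: realisation of the Gaussian weight of the digit sums by a permanent of linear size
-/

set_option autoImplicit false
set_option linter.unusedSectionVars false

namespace Pool.Agent.Helper11.DC

open Finset

/-! ### sizes -/

theorem two_sum_val (M : ℕ) : 2 * ∑ a : Fin (2 * M), (a : ℕ) = 2 * M * (2 * M - 1) := by
  have h1 := Finset.sum_range_id_mul_two (2 * M)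
  rw [Fin.sum_univ_eq_sum_range (fun a => a) (2 * M), mul_comm]
  exact h1

theorem sum_mx_A (M : ℕ) (i : Fin 3) (a : Fin (2 * M)) :
    ∑ t, mx M (i, Sum.inl a) t = 1 + 2 * (a : ℕ) := by
  rw [Fintype.sum_prod_type, Finset.sum_eq_single i]
  · rw [Fintype.sum_sum_type]
    simp [mx, mxA, Fin.sum_univ_three]
    ring
  · intro i' _ hi
    refine Finset.sum_eq_zero fun y _ => ?_
    simp [mx, hi.symm]
  · simp

theorem sum_mx_B (M : ℕ) (i : Fin 3) (a : Fin (2 * M)) :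
    ∑ t, mx M (i, Sum.inr (Sum.inl a)) t = 3 * M + 2 * (a : ℕ) := by
  rw [Fintype.sum_prod_type, Finset.sum_eq_single i]
  · rw [Fintype.sum_sum_type]
    simp [mx, mxB, Fin.sum_univ_three]
    ring
  · intro i' _ hi
    refine Finset.sum_eq_zero fun y _ => ?_
    simp [mx, hi.symm]
  · simp

theorem sum_mx_C (M : ℕ) (i j : Fin 3) :
    ∑ t, mx M (i, Sum.inr (Sum.inr j)) t = 1 := by
  rw [Fintype.sum_prod_type, Finset.sum_eq_single i]
  · rw [Fintype.sum_sum_type]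
    simp [mx, mxC]
  · intro i' _ hi
    refine Finset.sum_eq_zero fun y _ => ?_
    simp [mx, hi.symm]
  · simp

theorem cells_size {M : ℕ} (hM : 1 ≤ M) :
    ∑ x, QQ M x * ∑ t, mx M x t + (60 * M ^ 2) = 198 * M ^ 3 + 6 * M := by
  have h2 := two_sum_val M
  obtain ⟨m, rfl⟩ : ∃ m, M = m + 1 := ⟨M - 1, by omega⟩
  rw [Fintype.sum_prod_type]
  simp_rw [Fintype.sum_sum_type, sum_mx_A, sum_mx_B, sum_mx_C]
  simp only [QQ, Sum.elim_inl, Sum.elim_inr, ← Finset.mul_sum, Finset.sum_add_distrib,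
    Finset.sum_const, card_univ, Fintype.card_fin, smul_eq_mul, JR, Fin.sum_univ_three,
    Fin.isValue, Fin.reduceEq, if_true, if_false]
  have e1 : 3 * (m + 1) - 1 = 3 * m + 2 := by omega
  have e2 : 2 * (m + 1) - 1 = 2 * m + 1 := by omega
  rw [e2] at h2
  have h3 : ∑ a : Fin (2 * (m + 1)), (a : ℕ) = (m + 1) * (2 * m + 1) := by
    have : 2 * ∑ a : Fin (2 * (m + 1)), (a : ℕ) = 2 * ((m + 1) * (2 * m + 1)) := by
      rw [h2]; ring
    exact Nat.eq_of_mul_eq_mul_left (by norm_num) this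
  rw [e1, h3]
  ring

theorem caps_size {M : ℕ} (hM : 1 ≤ M) : ∑ t, JJt M t + 6 * M = 126 * M ^ 3 := by
  obtain ⟨m, rfl⟩ : ∃ m, M = m + 1 := ⟨M - 1, by omega⟩
  rw [Fintype.sum_prod_type]
  simp_rw [Fintype.sum_sum_type]
  simp only [JJt, Sum.elim_inl, Sum.elim_inr, 
    Finset.sum_const, card_univ, Fintype.card_fin, smul_eq_mul, JR, Fin.sum_univ_three,
    Fin.isValue, Fin.reduceEq, if_true, if_false]
  have e1 : 9 * (m + 1) ^ 2 - 1 = 9 * m ^ 2 + 18 * m + 8 := by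
    have : 9 * (m + 1) ^ 2 = 9 * m ^ 2 + 18 * m + 9 := by ring
    omega
  rw [e1]
  ring

/-! ### ports -/

/-- token monomial of a row port -/
def mR (M : ℕ) (r : Fin 3 → Fin M) (t : Tk M) : ℕ :=
  t.2.elim (fun a : Fin (2 * M) => if ((r t.1 : Fin M) : ℕ) = (a : ℕ) then 1 else 0) (fun _ => 0)

/-- token monomial of a column port -/
def mC (M : ℕ) (c : Fin 3 → Fin (2 * M)) (t : Tk M) : ℕ :=
  t.2.elim (fun a : Fin (2 * M) => if (c t.1).rev = a then 1 else 0) (fun _ => 0)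

theorem sum_mR (M : ℕ) (r : Fin 3 → Fin M) : ∑ t, mR M r t = 3 := by
  rw [Fintype.sum_prod_type]
  simp_rw [Fintype.sum_sum_type]
  simp only [mR, Sum.elim_inl, Sum.elim_inr, Finset.sum_const_zero, add_zero]
  have h : ∀ i : Fin 3, ∑ a : Fin (2 * M), (if ((r i : Fin M) : ℕ) = (a : ℕ) then 1 else 0) = 1 := by
    intro i
    rw [Finset.sum_eq_single (⟨r i, by have := (r i).2; omega⟩ : Fin (2 * M))]
    · simp
    · intro a _ ha
      rw [if_neg]
      intro h
      exact ha (Fin.ext h.symm)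
    · simp
  simp [h]

theorem sum_mC (M : ℕ) (c : Fin 3 → Fin (2 * M)) : ∑ t, mC M c t = 3 := by
  rw [Fintype.sum_prod_type]
  simp_rw [Fintype.sum_sum_type]
  simp only [mC, Sum.elim_inl, Sum.elim_inr, Finset.sum_const_zero, add_zero]
  simp

theorem card_fiber (n : ℕ) (i : Fin 3) (b : Fin n) :
    ((univ : Finset (Fin 3 → Fin n)).filter fun f => f i = b).card ≤ n ^ 2 := by
  have h : (univ : Finset (Fin 2 → Fin n)).card = n ^ 2 := by
    rw [card_univ, Fintype.card_fun, Fintype.card_fin, Fintype.card_fin]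
  rw [← h]
  refine Finset.card_le_card_of_injOn (fun f j => f (i.succAbove j)) (fun _ _ => mem_univ _) ?_
  intro f hf g hg hfg
  rw [mem_coe, mem_filter] at hf hg
  funext j
  rcases eq_or_ne j i with rfl | hj
  · rw [hf.2, hg.2]
  · obtain ⟨j', rfl⟩ := Fin.exists_succAbove_eq hj
    exact congrFun hfg j'

variable {M s : ℕ}

open Pool.Agent.Helper63.PC Helper16.N3

/-- the number of tokens of each class -/
noncomputable def kS (M : ℕ) (S : Finset ((Fin 3 → Fin M) × (Fin 3 → Fin M))) (i : Fin 3)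
    (a : Fin (2 * M)) : ℕ :=
  ∑ q ∈ S, (mR M q.1 (i, Sum.inl a) + mC M (vco 3 M q.1 q.2) (i, Sum.inl a))

theorem kS_le {S : Finset ((Fin 3 → Fin M) × (Fin 3 → Fin M))} (hS : S ∈ match' (vco 3 M) s)
    (i : Fin 3) (a : Fin (2 * M)) : kS M S i a ≤ 5 * M ^ 2 := by
  obtain ⟨_, h1, h2⟩ := (Pool.Agent.Helper63.PC.mem_match _ _ _).1 hS
  unfold kS
  rw [Finset.sum_add_distrib]
  have e1 : ∑ q ∈ S, mR M q.1 (i, Sum.inl a) ≤ M ^ 2 := by
    simp only [mR, Sum.elim_inl]
    rw [← Finset.sum_filter, Finset.sum_const, smul_eq_mul, mul_one]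
    by_cases ha : (a : ℕ) < M
    · refine le_trans ?_ (card_fiber M i ⟨a, ha⟩)
      refine Finset.card_le_card_of_injOn Prod.fst ?_ ?_
      · intro q hq
        rw [mem_coe, mem_filter] at hq
        rw [mem_coe, mem_filter]
        exact ⟨mem_univ _, Fin.ext hq.2⟩
      · intro q hq q' hq' h
        rw [mem_coe, mem_filter] at hq hq'
        exact h1 hq.1 hq'.1 h
    · rw [Finset.card_eq_zero.2]
      · exact Nat.zero_le _
      · rw [Finset.filter_eq_empty_iff]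
        intro q _ h
        have := (q.1 i).2
        omega
  have e2 : ∑ q ∈ S, mC M (vco 3 M q.1 q.2) (i, Sum.inl a) ≤ 4 * M ^ 2 := by
    simp only [mC, Sum.elim_inl]
    rw [← Finset.sum_filter, Finset.sum_const, smul_eq_mul, mul_one]
    refine le_trans ?_ ((card_fiber (2 * M) i a.rev).trans (le_of_eq (by ring)))
    refine Finset.card_le_card_of_injOn (fun q => vco 3 M q.1 q.2) ?_ ?_
    · intro q hq
      rw [mem_coe, mem_filter] at hq
      rw [mem_coe, mem_filter]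
      refine ⟨mem_univ _, ?_⟩
      rw [← hq.2, Fin.rev_rev]
    · intro q hq q' hq' h
      rw [mem_coe, mem_filter] at hq hq'
      exact h2 hq.1 hq'.1 h
  omega

theorem kS_sum (S : Finset ((Fin 3 → Fin M) × (Fin 3 → Fin M))) (i : Fin 3) :
    ∑ a : Fin (2 * M), (kS M S i a : ℝ) * (a : ℝ) =
      S.card * (2 * M - 1) - ∑ q ∈ S, ((q.2 i : Fin M) : ℝ) := by
  unfold kS
  push_cast
  simp_rw [Finset.sum_mul]
  rw [Finset.sum_comm]
  have h : ∀ q ∈ S, ∑ a : Fin (2 * M), ((mR M q.1 (i, Sum.inl a) : ℝ) +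
      (mC M (vco 3 M q.1 q.2) (i, Sum.inl a) : ℝ)) * (a : ℝ) =
      (2 * M - 1) - ((q.2 i : Fin M) : ℝ) := by
    intro q _
    simp only [mR, mC, Sum.elim_inl, add_mul, Finset.sum_add_distrib]
    push_cast
    have h1 : ∑ a : Fin (2 * M), (if ((q.1 i : Fin M) : ℕ) = (a : ℕ) then (1 : ℝ) else 0) * (a : ℝ) =
        ((q.1 i : Fin M) : ℝ) := by
      rw [Finset.sum_eq_single (⟨q.1 i, by have := (q.1 i).2; omega⟩ : Fin (2 * M))]
      · simp
      · intro a _ ha
        rw [if_neg, zero_mul]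
        intro h
        exact ha (Fin.ext h.symm)
      · simp
    have h2 : ∑ a : Fin (2 * M), (if (vco 3 M q.1 q.2 i).rev = a then (1 : ℝ) else 0) * (a : ℝ) =
        ((vco 3 M q.1 q.2 i).rev : ℝ) := by
      simp
    rw [h1, h2, Fin.val_rev]
    have h3 := (vco 3 M q.1 q.2 i).2
    have h4 : ((vco 3 M q.1 q.2 i : Fin (2 * M)) : ℕ) = q.1 i + q.2 i := rfl
    rw [Nat.cast_sub (by omega), h4]
    push_cast
    ring
  rw [Finset.sum_congr rfl h, Finset.sum_sub_distrib, Finset.sum_const, nsmul_eq_mul]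

theorem WP_eq (hM : 1 ≤ M) (T : ℝ) {S : Finset ((Fin 3 → Fin M) × (Fin 3 → Fin M))}
    (hS : S ∈ match' (vco 3 M) s) :
    WP (vco 3 M) (JJt M) (mR M) (mC M) (mx M) (QQ M)
      (FF M T ((9 * M ^ 2 - 1) * (M * (2 * M - 1)) - s * (2 * M - 1))) S =
      ((Real.exp (T * ∑ i, (∑ q ∈ S, ((q.2 i : Fin M) : ℝ)) ^ 2) : ℝ) : ℂ) := by
  have hcard := ((Pool.Agent.Helper63.PC.mem_match _ _ _).1 hS).1
  have hk := kS_le hS
  have h1 := filter_eq hM (kS M S) hk
  have hkt : ∀ t : Tk M, ∑ q ∈ S, (mR M q.1 t + mC M (vco 3 M q.1 q.2) t) = kt M (kS M S) t := by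
    rintro ⟨i, a | j⟩
    · rfl
    · simp [mR, mC, kt]
  have h3 : WP (vco 3 M) (JJt M) (mR M) (mC M) (mx M) (QQ M)
      (FF M T ((9 * M ^ 2 - 1) * (M * (2 * M - 1)) - s * (2 * M - 1))) S =
      ∑ φ ∈ ({phi0 M (kS M S)} : Finset (Ce M → ℕ)), ∏ x, FF M T ((9 * M ^ 2 - 1) * (M * (2 * M - 1)) -
        s * (2 * M - 1)) x (φ x) := by
    unfold WP
    simp only [hkt]
    refine Finset.sum_congr ?_ fun _ _ => rfl
    rw [← h1]
    ext φ
    simp only [mem_filter, Fintype.mem_piFinset]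
  have h4 : ∑ i : Fin 3, ((9 * (M : ℝ) ^ 2 - 1) * (M * (2 * M - 1)) -
      ∑ a : Fin (2 * M), (kS M S i a : ℝ) * (a : ℝ) -
        ((9 * (M : ℝ) ^ 2 - 1) * (M * (2 * M - 1)) - s * (2 * M - 1))) ^ 2 =
      ∑ i, (∑ q ∈ S, ((q.2 i : Fin M) : ℝ)) ^ 2 := by
    refine Finset.sum_congr rfl fun i _ => ?_
    rw [kS_sum, hcard]
    congr 1
    ring
  rw [h3, Finset.sum_singleton, prod_FF hM _ hk, h4]

/-- **The device.** -/
theorem device (hM : 1 ≤ M) (hs : s ≤ M ^ 3) :
    ∃ P ≤ 702 * M ^ 3, ExpProj P s (vco 3 M) (fun (k : Fin 3 → Fin M) i => ((k i : Fin M) : ℕ)) := by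
  have hc1 := cells_size hM
  have hc2 := caps_size hM
  have hcR : ∑ r : Fin 3 → Fin M, (∑ t, mR M r t + 1) = 4 * M ^ 3 := by
    simp_rw [sum_mR]
    rw [Finset.sum_const, card_univ, Fintype.card_fun, Fintype.card_fin, Fintype.card_fin]
    ring
  have hcC : ∑ c : Fin 3 → Fin (2 * M), (∑ t, mC M c t + 1) = 32 * M ^ 3 := by
    simp_rw [sum_mC]
    rw [Finset.sum_const, card_univ, Fintype.card_fun, Fintype.card_fin, Fintype.card_fin]
    ring
  have hcR' : ∑ r : Fin 3 → Fin M, ∑ t, mR M r t = 3 * M ^ 3 := by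
    simp_rw [sum_mR]
    rw [Finset.sum_const, card_univ, Fintype.card_fun, Fintype.card_fin, Fintype.card_fin]
    ring
  have hcC' : ∑ c : Fin 3 → Fin (2 * M), ∑ t, mC M c t = 24 * M ^ 3 := by
    simp_rw [sum_mC]
    rw [Finset.sum_const, card_univ, Fintype.card_fun, Fintype.card_fin, Fintype.card_fin]
    ring
  refine ⟨3 * (∑ r : Fin 3 → Fin M, (∑ t, mR M r t + 1) +
    ∑ c : Fin 3 → Fin (2 * M), (∑ t, mC M c t + 1) + ∑ x, QQ M x * ∑ t, mx M x t), ?_,
    fun T hT => ?_⟩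
  rotate_left
  · obtain ⟨e, C, hC, h⟩ := lemmaP (Fin 3 → Fin M) (Fin 3 → Fin M) (Fin 3 → Fin (2 * M)) (Tk M)
      (Ce M) (vco 3 M) (by
        intro r k k' h
        funext i
        have := congrArg Fin.val (congrFun h i)
        simp only [vco] at this
        exact Fin.ext (by omega)) s _ (by
        rw [Fintype.card_fun, Fintype.card_fin, Fintype.card_fin]; exact hs) (JJt M) (mR M) (mC M)
      (mx M) (by
        rintro ⟨i, a | a | j⟩
        · rw [sum_mx_A]; omega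
        · rw [sum_mx_B]; omega
        · rw [sum_mx_C]) (QQ M) (by
        have h1 : 1 ≤ M ^ 3 := Nat.one_le_pow _ _ hM
        rintro ⟨i, a | a | j⟩
        · simp only [QQ, Sum.elim_inl]; omega
        · simp only [QQ, Sum.elim_inl, Sum.elim_inr]; omega
        · simp only [QQ, Sum.elim_inr, JR]; split_ifs <;> omega)
      (FF M T ((9 * M ^ 2 - 1) * (M * (2 * M - 1)) - s * (2 * M - 1)))
      (fun x => FF_ne_zero M T _ x _) (by
        rw [hcR', hcC']
        have h1 : M ^ 2 ≤ M ^ 3 := Nat.pow_le_pow_right hM (by norm_num)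
        have h2 : M ≤ M ^ 3 := Nat.le_self_pow (by norm_num) M
        omega) rfl
    refine ⟨e, C, hC, fun A _ _ Y => ?_⟩
    rw [h A Y]
    congr 1
    refine Finset.sum_congr rfl fun S hS => ?_
    rw [WP_eq hM T hS]
  · rw [hcR, hcC]
    have h2 : M ≤ M ^ 2 := Nat.le_self_pow (by norm_num) M
    omega

end Pool.Agent.Helper11.DC
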