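import Mathlib

/-!
# The device: digit sums with linearly many tokens
-/

set_option autoImplicit false
set_option linter.unusedSectionVars false

namespace Pool.Agent.Helper11.DC

open Finset

/-- token classes: for each of the three digits, one class for each value of the digit, and three
registers. -/
abbrev Tk (M : ℕ) : Type := Fin 3 × (Fin (2 * M) ⊕ Fin 3)

/-- cells -/
abbrev Ce (M : ℕ) : Type := Fin 3 × (Fin (2 * M) ⊕ (Fin (2 * M) ⊕ Fin 3))

/-- capacities of the registers -/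
def JR (M : ℕ) (j : Fin 3) : ℕ := if j = 2 then 12 * M ^ 3 else 6 * M ^ 3

/-- capacities -/
def JJt (M : ℕ) (t : Tk M) : ℕ := t.2.elim (fun _ => 9 * M ^ 2 - 1) (JR M)

/-- monomial of the first kind of cells -/
def mxA (M : ℕ) (a : Fin (2 * M)) (t : Fin (2 * M) ⊕ Fin 3) : ℕ :=
  t.elim (fun a' => if a = a' then 1 else 0) (fun j => if j = 1 then 0 else (a : ℕ))

/-- monomial of the second kind of cells -/
def mxB (M : ℕ) (a : Fin (2 * M)) (t : Fin (2 * M) ⊕ Fin 3) : ℕ :=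
  t.elim (fun a' => if a = a' then 3 * M else 0) (fun j => if j = 0 then 0 else (a : ℕ))

/-- monomial of the registers -/
def mxC (M : ℕ) (j : Fin 3) (t : Fin (2 * M) ⊕ Fin 3) : ℕ :=
  t.elim (fun _ => 0) (fun j' => if j = j' then 1 else 0)

/-- the monomials of the cells -/
def mx (M : ℕ) (x : Ce M) (t : Tk M) : ℕ :=
  if x.1 = t.1 then x.2.elim (fun a => mxA M a t.2) (Sum.elim (fun a => mxB M a t.2)
    (fun j => mxC M j t.2)) else 0

/-- degrees of the cells -/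
def QQ (M : ℕ) (x : Ce M) : ℕ :=
  x.2.elim (fun _ => 3 * M - 1) (Sum.elim (fun _ => 3 * M - 1) (JR M))

/-- the functions of the registers -/
noncomputable def fR (M : ℕ) (T κ : ℝ) (j : Fin 3) (x : ℕ) : ℝ :=
  if j = 0 then Real.exp (T * ((1 - 3 * M) * ((JR M j : ℝ) - x) ^ 2 -
      2 * κ * ((JR M j : ℝ) - x) + κ ^ 2))
  else if j = 1 then Real.exp (T * (((3 * M) ^ 2 - 3 * M) * ((JR M j : ℝ) - x) ^ 2 -
      2 * κ * (3 * M) * ((JR M j : ℝ) - x)))
  else Real.exp (T * (3 * M * ((JR M j : ℝ) - x) ^ 2))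

/-- the functions of the cells -/
noncomputable def FF (M : ℕ) (T κ : ℝ) (x : Ce M) (l : ℕ) : ℂ :=
  x.2.elim (fun _ => 1) (Sum.elim (fun _ => 1) (fun j => ((fR M T κ j l : ℝ) : ℂ)))

theorem FF_ne_zero (M : ℕ) (T κ : ℝ) (x : Ce M) (l : ℕ) : FF M T κ x l ≠ 0 := by
  obtain ⟨i, a | a | j⟩ := x
  · simp [FF]
  · simp [FF]
  · simp only [FF, Sum.elim_inr, fR]
    rw [Complex.ofReal_ne_zero]
    split_ifs <;> exact (Real.exp_pos _).ne'

/-- The solution of the token equations. -/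
def phi0 (M : ℕ) (k : Fin 3 → Fin (2 * M) → ℕ) (x : Ce M) : ℕ :=
  x.2.elim (fun a => (9 * M ^ 2 - 1 - k x.1 a) % (3 * M))
    (Sum.elim (fun a => (9 * M ^ 2 - 1 - k x.1 a) / (3 * M))
      (fun j => JR M j - ((if j = 1 then 0 else ∑ a : Fin (2 * M), (9 * M ^ 2 - 1 - k x.1 a) %
        (3 * M) * a) + (if j = 0 then 0 else ∑ a : Fin (2 * M), (9 * M ^ 2 - 1 - k x.1 a) /
        (3 * M) * a))))

/-- tokens consumed by the ports -/
def kt (M : ℕ) (k : Fin 3 → Fin (2 * M) → ℕ) (t : Tk M) : ℕ := t.2.elim (k t.1) (fun _ => 0)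

theorem sum_mx (M : ℕ) (phi : Ce M → ℕ) (t : Tk M) :
    ∑ x, phi x * mx M x t = ∑ a, phi (t.1, Sum.inl a) * mxA M a t.2 +
      (∑ a, phi (t.1, Sum.inr (Sum.inl a)) * mxB M a t.2 +
        ∑ j, phi (t.1, Sum.inr (Sum.inr j)) * mxC M j t.2) := by
  rw [Fintype.sum_prod_type, Finset.sum_eq_single t.1]
  · rw [Fintype.sum_sum_type, Fintype.sum_sum_type]
    simp [mx]
  · intro i _ hi
    refine Finset.sum_eq_zero fun y _ => ?_
    simp [mx, hi]
  · simp

theorem sum_mx_inl (M : ℕ) (phi : Ce M → ℕ) (i : Fin 3) (a : Fin (2 * M)) :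
    ∑ x, phi x * mx M x (i, Sum.inl a) = phi (i, Sum.inl a) +
      phi (i, Sum.inr (Sum.inl a)) * (3 * M) := by
  rw [sum_mx]
  simp [mxA, mxB, mxC]

theorem sum_mx_inr (M : ℕ) (phi : Ce M → ℕ) (i : Fin 3) (j : Fin 3) :
    ∑ x, phi x * mx M x (i, Sum.inr j) =
      ((if j = 1 then 0 else ∑ a, phi (i, Sum.inl a) * (a : ℕ)) +
        (if j = 0 then 0 else ∑ a, phi (i, Sum.inr (Sum.inl a)) * (a : ℕ))) +
        phi (i, Sum.inr (Sum.inr j)) := by
  rw [sum_mx]
  simp only [mxA, mxB, mxC, Sum.elim_inr]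
  rw [← add_assoc]
  congr 1
  · congr 1
    · split_ifs <;> simp
    · split_ifs <;> simp
  · simp

theorem sum_fin_le (M : ℕ) (f : Fin (2 * M) → ℕ) (hf : ∀ a, f a ≤ 3 * M - 1) :
    ∑ a, f a * (a : ℕ) ≤ 6 * M ^ 3 := by
  calc ∑ a, f a * (a : ℕ) ≤ ∑ a : Fin (2 * M), (3 * M) * (a : ℕ) :=
        Finset.sum_le_sum fun a _ => Nat.mul_le_mul_right _ ((hf a).trans (Nat.sub_le _ _))
    _ = (3 * M) * ∑ a : Fin (2 * M), (a : ℕ) := by rw [Finset.mul_sum]
    _ = (3 * M) * ∑ a ∈ range (2 * M), a := by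
        rw [Fin.sum_univ_eq_sum_range (fun a => a) (2 * M)]
    _ ≤ 6 * M ^ 3 := by
        have h := Finset.sum_range_id_mul_two (2 * M)
        have h2 : (∑ a ∈ range (2 * M), a) ≤ 2 * M ^ 2 := by
          have h3 : 2 * M * (2 * M - 1) ≤ 2 * M * (2 * M) := Nat.mul_le_mul_left _ (Nat.sub_le _ _)
          nlinarith
        calc (3 * M) * ∑ a ∈ range (2 * M), a ≤ (3 * M) * (2 * M ^ 2) := Nat.mul_le_mul_left _ h2
          _ = 6 * M ^ 3 := by ring

/-- The token equations have exactly one solution. -/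
theorem filter_eq {M : ℕ} (hM : 1 ≤ M) (k : Fin 3 → Fin (2 * M) → ℕ)
    (hk : ∀ i a, k i a ≤ 5 * M ^ 2) :
    ((Fintype.piFinset fun x : Ce M => range (QQ M x + 1)).filter
      fun phi => ∀ t, kt M k t + ∑ x, phi x * mx M x t = JJt M t) = {phi0 M k} := by
  have h3M : 0 < 3 * M := by omega
  have hk' : ∀ i a, k i a ≤ 9 * M ^ 2 - 1 := by
    intro i a
    have h1 := hk i a
    have h2 : 1 ≤ M ^ 2 := Nat.one_le_pow _ _ hM
    omega
  have hmod : ∀ i a, (9 * M ^ 2 - 1 - k i a) % (3 * M) ≤ 3 * M - 1 := fun i a => by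
    have := Nat.mod_lt (9 * M ^ 2 - 1 - k i a) h3M
    omega
  have hdiv : ∀ i a, (9 * M ^ 2 - 1 - k i a) / (3 * M) ≤ 3 * M - 1 := fun i a => by
    have h1 : (9 * M ^ 2 - 1 - k i a) / (3 * M) < 3 * M := by
      rw [Nat.div_lt_iff_lt_mul h3M]
      have h2 : 1 ≤ M ^ 2 := Nat.one_le_pow _ _ hM
      have : 3 * M * (3 * M) = 9 * M ^ 2 := by ring
      omega
    omega
  have hle : ∀ i j, ((if j = 1 then 0 else ∑ a : Fin (2 * M), (9 * M ^ 2 - 1 - k i a) %
        (3 * M) * a) + (if j = 0 then 0 else ∑ a : Fin (2 * M), (9 * M ^ 2 - 1 - k i a) /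
        (3 * M) * a)) ≤ JR M j := by
    intro i j
    have h1 := sum_fin_le M (fun a => (9 * M ^ 2 - 1 - k i a) % (3 * M)) (hmod i)
    have h2 := sum_fin_le M (fun a => (9 * M ^ 2 - 1 - k i a) / (3 * M)) (hdiv i)
    fin_cases j
    · simp only [JR]
      simpa using h1
    · simp only [JR]
      simpa using h2
    · simp only [JR]
      have h3 := add_le_add h1 h2
      simp only [Fin.reduceFinMk, Fin.reduceEq, if_false, if_true, Fin.isValue]
      refine h3.trans (by omega)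
  ext phi
  simp only [mem_filter, Fintype.mem_piFinset, mem_range, mem_singleton]
  constructor
  · rintro ⟨hphi, heq⟩
    have hA : ∀ i a, phi (i, Sum.inl a) = (9 * M ^ 2 - 1 - k i a) % (3 * M) ∧
        phi (i, Sum.inr (Sum.inl a)) = (9 * M ^ 2 - 1 - k i a) / (3 * M) := by
      intro i a
      have h1 := heq (i, Sum.inl a)
      rw [sum_mx_inl] at h1
      simp only [kt, JJt, Sum.elim_inl] at h1
      have h2 := hphi (i, Sum.inl a)
      simp only [QQ, Sum.elim_inl] at h2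
      have h3 : 9 * M ^ 2 - 1 - k i a = phi (i, Sum.inl a) + 3 * M * phi (i, Sum.inr (Sum.inl a)) := by
        have := hk' i a
        rw [mul_comm (3 * M)]
        omega
      have h4 : phi (i, Sum.inl a) < 3 * M := by omega
      rw [h3, Nat.add_mul_mod_self_left, Nat.mod_eq_of_lt h4, Nat.add_mul_div_left _ _ h3M,
        Nat.div_eq_of_lt h4]
      simp
    funext x
    obtain ⟨i, a | a | j⟩ := x
    · exact (hA i a).1
    · exact (hA i a).2
    · have h1 := heq (i, Sum.inr j)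
      rw [sum_mx_inr] at h1
      simp only [kt, JJt, Sum.elim_inr, zero_add, (hA i _).1, (hA i _).2] at h1
      simp only [phi0, Sum.elim_inr]
      omega
  · rintro rfl
    constructor
    · intro x
      obtain ⟨i, a | a | j⟩ := x
      · simp only [phi0, QQ, Sum.elim_inl]
        have := hmod i a
        omega
      · simp only [phi0, QQ, Sum.elim_inl, Sum.elim_inr]
        have := hdiv i a
        omega
      · simp only [phi0, QQ, Sum.elim_inr]
        omega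
    · intro t
      obtain ⟨i, a | j⟩ := t
      · rw [sum_mx_inl]
        simp only [kt, JJt, Sum.elim_inl, phi0, Sum.elim_inr]
        have h1 := Nat.mod_add_div (9 * M ^ 2 - 1 - k i a) (3 * M)
        have h2 := mul_comm ((9 * M ^ 2 - 1 - k i a) / (3 * M)) (3 * M)
        have := hk' i a
        omega
      · rw [sum_mx_inr]
        simp only [kt, JJt, Sum.elim_inr, phi0, Sum.elim_inl, zero_add]
        have := hle i j
        omega


/-- The digit sum. -/
theorem digit_sum {M : ℕ} (hM : 1 ≤ M) (k : Fin 3 → Fin (2 * M) → ℕ)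
    (hk : ∀ i a, k i a ≤ 5 * M ^ 2) (i : Fin 3) :
    ((∑ a : Fin (2 * M), (9 * M ^ 2 - 1 - k i a) % (3 * M) * (a : ℕ) : ℕ) : ℝ) +
      3 * M * ((∑ a : Fin (2 * M), (9 * M ^ 2 - 1 - k i a) / (3 * M) * (a : ℕ) : ℕ) : ℝ) =
      (9 * M ^ 2 - 1) * (M * (2 * M - 1)) - ∑ a : Fin (2 * M), (k i a : ℝ) * (a : ℝ) := by
  have hk' : ∀ i a, k i a ≤ 9 * M ^ 2 - 1 := by
    intro i a
    have h1 := hk i a
    have h2 : 1 ≤ M ^ 2 := Nat.one_le_pow _ _ hM
    omega
  have h0 : ∑ a : Fin (2 * M), (a : ℝ) = M * (2 * M - 1) := by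
    have h1 := Finset.sum_range_id_mul_two (2 * M)
    rw [Fin.sum_univ_eq_sum_range (fun a => (a : ℝ)) (2 * M)]
    have h2 : ((∑ a ∈ range (2 * M), a : ℕ) : ℝ) * 2 = 2 * M * (2 * M - 1) := by
      have h3 := congrArg (fun n : ℕ => (n : ℝ)) h1
      simp only [Nat.cast_mul, Nat.cast_ofNat] at h3
      rw [h3, Nat.cast_sub (by omega)]
      push_cast
      ring
    push_cast at h2
    linarith
  rw [← h0, Finset.mul_sum, ← Finset.sum_sub_distrib]
  push_cast
  rw [Finset.mul_sum, ← Finset.sum_add_distrib]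
  refine Finset.sum_congr rfl fun a _ => ?_
  have h1 := Nat.mod_add_div (9 * M ^ 2 - 1 - k i a) (3 * M)
  have h2 : ((9 * M ^ 2 - 1 - k i a : ℕ) : ℝ) = 9 * (M : ℝ) ^ 2 - 1 - k i a := by
    have h4 : 1 ≤ 9 * M ^ 2 := by
      have h2 : 1 ≤ M ^ 2 := Nat.one_le_pow _ _ hM
      omega
    rw [Nat.cast_sub (hk' i a), Nat.cast_sub h4]
    push_cast
    ring
  have h3 := congrArg (fun n : ℕ => (n : ℝ)) h1
  simp only [Nat.cast_add, Nat.cast_mul, Nat.cast_ofNat, h2] at h3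
  linear_combination (a : ℝ) * h3

theorem hle_aux {M : ℕ} (hM : 1 ≤ M) (k : Fin 3 → Fin (2 * M) → ℕ)
    (hk : ∀ i a, k i a ≤ 5 * M ^ 2) (i j : Fin 3) :
    ((if j = 1 then 0 else ∑ a : Fin (2 * M), (9 * M ^ 2 - 1 - k i a) %
        (3 * M) * a) + (if j = 0 then 0 else ∑ a : Fin (2 * M), (9 * M ^ 2 - 1 - k i a) /
        (3 * M) * a)) ≤ JR M j := by
  have h3M : 0 < 3 * M := by omega
  have hmod : ∀ i a, (9 * M ^ 2 - 1 - k i a) % (3 * M) ≤ 3 * M - 1 := fun i a => by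
    have := Nat.mod_lt (9 * M ^ 2 - 1 - k i a) h3M
    omega
  have hdiv : ∀ i a, (9 * M ^ 2 - 1 - k i a) / (3 * M) ≤ 3 * M - 1 := fun i a => by
    have h1 : (9 * M ^ 2 - 1 - k i a) / (3 * M) < 3 * M := by
      rw [Nat.div_lt_iff_lt_mul h3M]
      have h2 : 1 ≤ M ^ 2 := Nat.one_le_pow _ _ hM
      have : 3 * M * (3 * M) = 9 * M ^ 2 := by ring
      omega
    omega
  have h1 := sum_fin_le M (fun a => (9 * M ^ 2 - 1 - k i a) % (3 * M)) (hmod i)
  have h2 := sum_fin_le M (fun a => (9 * M ^ 2 - 1 - k i a) / (3 * M)) (hdiv i)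
  fin_cases j
  · simp only [JR]
    simpa using h1
  · simp only [JR]
    simpa using h2
  · simp only [JR]
    have h3 := add_le_add h1 h2
    simp only [Fin.reduceFinMk, Fin.reduceEq, if_false, if_true, Fin.isValue]
    refine h3.trans (by omega)

/-- The weight. -/
theorem prod_FF {M : ℕ} (hM : 1 ≤ M) (k : Fin 3 → Fin (2 * M) → ℕ)
    (hk : ∀ i a, k i a ≤ 5 * M ^ 2) (T κ : ℝ) :
    ∏ x, FF M T κ x (phi0 M k x) = ((Real.exp (T * ∑ i, ((9 * M ^ 2 - 1) * (M * (2 * M - 1)) -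
      ∑ a : Fin (2 * M), (k i a : ℝ) * (a : ℝ) - κ) ^ 2) : ℝ) : ℂ) := by
  rw [Fintype.prod_prod_type, Finset.mul_sum, Real.exp_sum, Complex.ofReal_prod]
  refine Finset.prod_congr rfl fun i _ => ?_
  rw [Fintype.prod_sum_type, Fintype.prod_sum_type]
  simp only [FF, Sum.elim_inl, Sum.elim_inr, Finset.prod_const_one, one_mul]
  rw [← Complex.ofReal_prod]
  congr 1
  have h := digit_sum hM k hk i
  set u : ℕ := ∑ a : Fin (2 * M), (9 * M ^ 2 - 1 - k i a) % (3 * M) * (a : ℕ) with hu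
  set v : ℕ := ∑ a : Fin (2 * M), (9 * M ^ 2 - 1 - k i a) / (3 * M) * (a : ℕ) with hv
  have e : ∀ j : Fin 3, ((JR M j : ℕ) : ℝ) - ((phi0 M k (i, Sum.inr (Sum.inr j)) : ℕ) : ℝ) =
      (((if j = 1 then 0 else u) + (if j = 0 then 0 else v) : ℕ) : ℝ) := by
    intro j
    have h1 := hle_aux hM k hk i j
    have h2 : phi0 M k (i, Sum.inr (Sum.inr j)) = JR M j -
      ((if j = 1 then 0 else u) + (if j = 0 then 0 else v)) := rfl
    rw [h2, Nat.cast_sub h1]
    ring
  rw [Fin.prod_univ_three]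
  unfold fR
  rw [e, e, e]
  simp only [Fin.isValue, Fin.reduceEq, if_true, if_false, one_ne_zero, zero_ne_one]
  rw [← Real.exp_add, ← Real.exp_add, ← h]
  congr 1
  push_cast
  ring

end Pool.Agent.Helper11.DC
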