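import Pool.Agent.Helper11.DC.Device
import Pool.Agent.Helper24.CU.Numeric0

/-!
# Border determinantal complexity of the permanent: the cubic lower bound
-/

set_option autoImplicit false

namespace Pool.Agent.Helper11.DC

open Finset Pool.Agent.Helper24.SQ Pool.Agent.Helper63.PC

theorem final : ∃ c : ℝ, 0 < c ∧ ∀ n m : ℕ, 1 ≤ n → BorderRep n m → c * (n : ℝ) ^ 3 ≤ m := by
  obtain ⟨c, hc, H⟩ := Pool.Agent.Helper24.CU.numeric0 702 (by norm_num)
  refine ⟨c, hc, fun n m hn h => H n m (h.pos hn) fun M d hM hMd hd hPn => ?_⟩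
  obtain ⟨P, hP, hE⟩ := device (M := M) (s := d + 1) (by omega) (by omega)
  exact ineq_vec hMd hd hE (hP.trans hPn) h

end Pool.Agent.Helper11.DC
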